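import Pool.Agent.S10.DuMain
import Pool.Agent.S10.DicX
import Pool.Agent.S9.MG1

/-!
# Right-angled Coxeter groups which act on homology manifolds
-/

set_option autoImplicit false
set_option linter.unusedSectionVars false

open Finset

namespace Pool.Agent.H3.SL

open Pool.Agent.S9 Pool.Agent.S10.DX Pool.Agent.H19.Cub Pool.Agent.H37.TM Pool.Agent.H65.RM
open Pool.Agent.H4.Singer (RGrp gen gen_mul_gen gen_comm)

/-- A subgroup `P` of finite index of the group `W` (for example `W` itself) acts properly and simplicially on a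
simplicial complex `K` with a subcomplex `B`. Either `K` is a homology manifold of dimension `n` over the field of
two elements with boundary `B`, and the reduced homology of `K` over this field vanishes in the degrees less than `d`;
or there is a `P`-invariant cycle modulo two of dimension `n` of the locally finite complex `K` relative to `B`
(infinite chains), such that the cohomology with compact supports of `(K, B)` vanishes in the degrees between `n - d`
and `n` and is of dimension one in the degree `n`, by the evaluation at the cycle (`ManOrDual`). -/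
def Acts (W : Type) [Group W] (n d : ℕ) : Prop :=
  ∃ (P : Subgroup W) (_ : P.FiniteIndex) (U : Type) (_ : DecidableEq U) (_ : MulAction P U)
    (K B : Set (Finset U)), Pool.Agent.S10.ManOrDual P K B n d ∧ PAct P K B

section Quo

variable {V : Type} [DecidableEq V] [Fintype V] (G : SimpleGraph V) (N : Subgroup (RGrp G))
  [N.Normal]

/-- the quotient of the Davis complex by `N` -/
noncomputable def QN : CubeComplex V (RGrp G ⧸ N) where
  graph := G
  lab _ := univ
  nb v x := x * QuotientGroup.mk (gen G v)
  lab_nb v x _ := mem_univ v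
  nb_nb v x _ := by
    rw [mul_assoc, ← QuotientGroup.mk_mul, gen_mul_gen, QuotientGroup.mk_one, mul_one]
  lab_adj u v x _ _ _ := mem_univ u
  nb_comm u v x h _ _ := by
    rw [mul_assoc, mul_assoc, ← QuotientGroup.mk_mul, ← QuotientGroup.mk_mul, gen_comm G u v h]

/-- the group as a right-angled Coxeter group of the complex -/
noncomputable abbrev RN : Rac (QN G N).graph (RGrp G) := racR G

theorem jj_surj : Function.Surjective (jj (RN G N) (1 : RGrp G ⧸ N)) := by
  intro w
  have h : w ∈ Subgroup.closure (Set.range (gen G)) :=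
    (racR G).gen.symm ▸ Subgroup.mem_top w
  induction h using Subgroup.closure_induction_right with
  | one => exact ⟨bse (QN G N) 1, jj_base _ _⟩
  | mul_right x hx y hy ih =>
    obtain ⟨c, rfl⟩ := ih
    obtain ⟨v, rfl⟩ := hy
    exact ⟨(QN G N).nbc 1 v c, jj_nb (RN G N) 1 (mem_univ v)⟩
  | mul_inv_cancel x hx y hy ih =>
    obtain ⟨c, rfl⟩ := ih
    obtain ⟨v, rfl⟩ := hy
    refine ⟨(QN G N).nbc 1 v c, ?_⟩
    rw [Pool.Agent.H4.Singer.gen_inv]
    exact jj_nb (RN G N) 1 (mem_univ v)

/-- the universal cover is the Davis complex -/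
noncomputable def ej : (QN G N).Cover 1 ≃ RGrp G :=
  Equiv.ofBijective (jj (RN G N) 1) ⟨jj_inj (RN G N) 1, jj_surj G N⟩

theorem ej_nb (v : V) (c : (QN G N).Cover 1) : ej G N ((QN G N).nbc 1 v c) = ej G N c * gen G v :=
  jj_nb (RN G N) 1 (mem_univ v)

theorem proj_ej (c : (QN G N).Cover 1) : (QN G N).proj 1 c = QuotientGroup.mk (ej G N c) := by
  induction c using cov_ind with
  | h0 =>
    show (1 : RGrp G ⧸ N) = QuotientGroup.mk (jj (RN G N) 1 (bse (QN G N) 1))
    rw [jj_base]
    rfl
  | h1 c v hv ih =>
    rw [proj_nbc' _ _ hv, ej_nb, QuotientGroup.mk_mul, ← ih]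
    rfl

/-- the action of a group on the universal cover -/
@[reducible] noncomputable def actN {Γ : Type} [Group Γ] (f : Γ →* RGrp G) : MulAction Γ ((QN G N).Cover 1) where
  smul g c := (ej G N).symm (f g * ej G N c)
  one_smul c := by
    show (ej G N).symm (f 1 * ej G N c) = c
    rw [f.map_one, one_mul, Equiv.symm_apply_apply]
  mul_smul g h c := by
    show (ej G N).symm (f (g * h) * ej G N c) =
      (ej G N).symm (f g * ej G N ((ej G N).symm (f h * ej G N c)))
    rw [f.map_mul, Equiv.apply_symm_apply, mul_assoc]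

theorem isDeckN {Γ : Type} [Group Γ] (f : Γ →* RGrp G) (hf : Function.Injective f)
    (hr : f.range = N) :
    let _ := actN G N f
    IsDeck Γ (QN G N) 1 := by
  let _ := actN G N f
  have hs : ∀ (g : Γ) (c : (QN G N).Cover 1), ej G N (g • c) = f g * ej G N c := fun g c =>
    Equiv.apply_symm_apply _ _
  constructor
  · intro g v c _
    refine (ej G N).injective ?_
    rw [ej_nb, hs, hs, ej_nb, mul_assoc]
  · intro g c
    rw [proj_ej, proj_ej, hs, QuotientGroup.mk_mul]
    have h1 : f g ∈ N := hr ▸ (⟨g, rfl⟩ : f g ∈ f.range)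
    rw [(QuotientGroup.eq_one_iff (f g)).2 h1, one_mul]
  · intro c c' h
    rw [proj_ej, proj_ej, QuotientGroup.eq] at h
    have h1 : ej G N c' * (ej G N c)⁻¹ ∈ N := by
      have h2 := (inferInstance : N.Normal).conj_mem _ h (ej G N c)
      rwa [mul_inv_cancel_left] at h2
    obtain ⟨g, hg⟩ : ej G N c' * (ej G N c)⁻¹ ∈ f.range := hr.symm ▸ h1
    refine ⟨g, (ej G N).injective ?_⟩
    rw [hs, hg, inv_mul_cancel_right]
  · intro g c h
    have h1 := congrArg (ej G N) h
    rw [hs] at h1
    refine hf ?_
    rw [map_one]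
    exact mul_eq_right.1 h1

/-- the `ℓ²`-homology of the universal cover and of the Davis complex -/
theorem l2_QN {i : ℕ} (h : L2HomologyZero ((QN G N).cover 1) i) :
    Pool.Agent.H4.Singer.L2HomologyZero G i := by
  intro ν hν z hz hbz ε hε
  have h0 : IsL2Chain ((QN G N).cover 1) i fun σ c => z σ (ej G N c) := by
    refine ⟨fun σ c hc => ⟨subset_univ σ, hz.supp σ _ hc⟩, fun σ c _ v hv => ?_, fun σ => ?_⟩
    · show z σ (ej G N ((QN G N).nbc 1 v c)) = - z σ (ej G N c)
      rw [ej_nb]
      exact hz.anti σ v hv _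
    · exact ((ej G N).summable_iff (f := fun w => ‖z σ w‖ ^ 2)).2 (hz.l2 σ)
  obtain ⟨y, hy, hyz⟩ := h ν hν _ h0
    (funext fun σ => funext fun c => congrFun (congrFun hbz σ) (ej G N c)) ε hε
  refine ⟨fun σ w => y σ ((ej G N).symm w), ⟨fun σ w hw => (hy.supp σ _ hw).2, fun σ v hv w => ?_,
    fun σ => ?_⟩, ?_⟩
  · have h1 : (ej G N).symm (w * gen G v) = (QN G N).nbc 1 v ((ej G N).symm w) := by
      refine (ej G N).injective ?_
      rw [ej_nb, Equiv.apply_symm_apply, Equiv.apply_symm_apply]
    show y σ ((ej G N).symm (w * gen G v)) = - y σ ((ej G N).symm w)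
    rw [h1]
    exact hy.anti σ _ (subset_univ σ) v hv
  · exact ((ej G N).symm.summable_iff (f := fun c => ‖y σ c‖ ^ 2)).2 (hy.l2 σ)
  · refine lt_of_eq_of_lt (sum_congr rfl fun σ _ => ?_) hyz
    rw [← (ej G N).tsum_eq]
    refine tsum_congr fun c => ?_
    have h2 : Pool.Agent.H4.Singer.dbd ν (fun σ w => y σ ((ej G N).symm w)) σ (ej G N c) =
        bdry ν y σ c := by
      unfold Pool.Agent.H4.Singer.dbd bdry
      refine sum_congr rfl fun v _ => ?_
      show _ * y (insert v σ) ((ej G N).symm (ej G N c)) = _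
      rw [Equiv.symm_apply_apply]
    rw [h2]

end Quo

/-- **Singer's conjecture for right-angled Coxeter groups** which act properly on a homology manifold. -/
theorem acts_l2 {V : Type} [DecidableEq V] [Fintype V] {G : SimpleGraph V} {n d i : ℕ}
    (hd : ∀ σ : Finset V, G.IsClique (σ : Set V) → σ.card ≤ d) (h : Acts (RGrp G) n d)
    (hi : n < 2 * i) : Pool.Agent.H4.Singer.L2HomologyZero G i := by
  classical
  obtain ⟨P, hP, U, _, _, K, B, hM, hA⟩ := h
  let N : Subgroup (RGrp G) := P.normalCore
  have hN : N ≤ P := Subgroup.normalCore_le P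
  have hNf : N.FiniteIndex := inferInstance
  let _ : Fintype (RGrp G ⧸ N) := Subgroup.fintypeQuotientOfFiniteIndex
  let f : N.subgroupOf P →* RGrp G := P.subtype.comp (N.subgroupOf P).subtype
  have hf : Function.Injective f := fun a b hab => Subtype.ext (Subtype.ext hab)
  have hr : f.range = N := by
    ext w
    constructor
    · rintro ⟨g, rfl⟩
      exact g.2
    · intro hw
      exact ⟨⟨⟨w, hN hw⟩, hw⟩, rfl⟩
  let _ := actN G N f
  exact l2_QN G N (Pool.Agent.S10.l2_of_properD (QN G N) 1 (isDeckN G N f hf hr)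
    (fun x σ _ hσ => hd σ hσ) (hM.sub (N.subgroupOf P)) (PAct.sub hA (N.subgroupOf P)) hi)

end Pool.Agent.H3.SL
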