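import Pool.Agent.H3.SL.Disc
import Pool.Agent.S9.FinD

/-!
# Full subcomplexes of flag homology balls and spheres
-/

set_option autoImplicit false

open Finset

namespace Pool.Agent.H3.SL

/-- **Singer's conjecture for right-angled Coxeter groups.** `L` is a full subcomplex of a flag homology ball or sphere
of dimension `n - 1` over the field of two elements, `n < 2 i`. -/
theorem ball_l2 {V W : Type} [DecidableEq V] [Fintype V] [DecidableEq W] [Fintype W]
    {L : SimpleGraph V} {K : SimpleGraph W} {n i : ℕ} (hK : HomologyBall2 K n) (e : L ↪g K)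
    (hi : n < 2 * i) : Pool.Agent.H4.Singer.L2HomologyZero L i := by
  obtain ⟨B, hB⟩ := hK.isDisc
  exact Pool.Agent.S9.l2_disc hB e hi

end Pool.Agent.H3.SL
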