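import Pool.Agent.H3.SL.BallL2
import Pool.Agent.H3.SL.Acts
import Pool.Agent.H73.LK.Cls

/-!
# A class of labelled flag complexes
-/

set_option autoImplicit false
set_option linter.unusedSectionVars false

open Finset

namespace Pool.Agent.H3.SL

open Pool.Agent.H4.FC Pool.Agent.H4.FD Pool.Agent.H4.HY Pool.Agent.H85.VK Pool.Agent.H85.Fold4
  Pool.Agent.H19.VX Pool.Agent.H19.Cub Pool.Agent.H19.LI Pool.Agent.H73.LK
open Pool.Agent.H4.Singer (racg)

/-- `Vanishing M i`: the least class of pairs of a Coxeter matrix `M` (a labelled finite flag complex `L`, the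
flag complex of `gr M`) and a degree `i` with the following members and rules.

If all labels are two (`IsRA M`) and `n < 2 i`:
* `ball`: `L` is a full subcomplex of a flag homology ball or sphere of dimension `n - 1` over the field with two
  elements;
* `acts`: `L` has dimension less than `d`; the right-angled Coxeter group, or a subgroup of finite index, acts
  properly and simplicially on a homology manifold of dimension `n`, with or without boundary, over the field with
  two elements, which is acyclic (or whose reduced homology vanishes in the degrees less than `d`), or on a duality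
  pair of dimension `n` over this field, for instance a complex homotopy equivalent to a topological manifold.

If every clique generates a finite group (`IsFC M`):
* `vanKampen`: `L` has dimension at most `k < i` and vanishing van Kampen obstruction (modulo two) to
  embedding in `ℝ^{2k}`, for example `L` is a subcomplex, full or not, of a sphere of dimension `2 k`;
* `dual`: `L` is a homology sphere of dimension `n - 1` which is in the class for the degree `n - i`;
* `codim`: `m ≤ i`, and the full subcomplexes of the links of the cliques with `m` vertices are in the class for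
  all degrees `j ≥ i - m`.

For all labels:
* `finite`: the group is finite and `i > 0`;
* `infinite`: the group is infinite and `i = 0`;
* `glue`: `L` is the union of the full subcomplexes on `A` and on `B`, and these are in the class for the degree
  `i`, their intersection for the degree `i - 1`;
* `part`: `L` and the intersection are in the class for `i`; then the parts are;
* `prod`: `L` is the join of `A` and `B`, with labels two between them, and for all `p + q = i` the complex on
  `A` is in the class for `p` or the complex on `B` is in the class for `q`. -/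
inductive Vanishing : {V : Type} → [DecidableEq V] → [Fintype V] → CoxeterMatrix V → ℕ → Prop
  | ball {V W : Type} [DecidableEq V] [Fintype V] [DecidableEq W] [Fintype W]
      (M : CoxeterMatrix V) (hM : IsRA M) (n i : ℕ) (hi : n < 2 * i) (K : SimpleGraph W)
      (hK : HomologyBall2 K n) (e : gr M ↪g K) : Vanishing M i
  | acts {V : Type} [DecidableEq V] [Fintype V] (M : CoxeterMatrix V) (hM : IsRA M) (n d i : ℕ)
      (hi : n < 2 * i) (hd : ∀ σ : Finset V, (gr M).IsClique (σ : Set V) → σ.card ≤ d)
      (h : Acts M.Group n d) : Vanishing M i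
  | vanKampen {V : Type} [DecidableEq V] [Fintype V] (M : CoxeterMatrix V) (hM : IsFC M) (k i : ℕ)
      (hk : k < i) (hdim : ∀ σ : Finset V, (gr M).IsClique (σ : Set V) → σ.card ≤ k + 1)
      (h : VanKampenZero (gr M) k) : Vanishing M i
  | dual {V : Type} [DecidableEq V] [Fintype V] (M : CoxeterMatrix V) (hM : IsFC M) (n i j : ℕ)
      (hL : HomologySphere (gr M) n) (hij : i + j = n) (h : Vanishing M j) : Vanishing M i
  | codim {V : Type} [DecidableEq V] [Fintype V] (M : CoxeterMatrix V) (hM : IsFC M) (m i : ℕ)
      (hm : m ≤ i) (h : ∀ σ Z : Finset V, (gr M).IsClique (σ : Set V) → σ.card = m →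
        (∀ v ∈ Z, ∀ u ∈ σ, (gr M).Adj u v) → ∀ j, i ≤ j + m → Vanishing (sub M Z) j) : Vanishing M i
  | finite {V : Type} [DecidableEq V] [Fintype V] (M : CoxeterMatrix V) (hM : Finite M.Group) (i : ℕ)
      (hi : 0 < i) : Vanishing M i
  | infinite {V : Type} [DecidableEq V] [Fintype V] (M : CoxeterMatrix V) (hM : Infinite M.Group) :
      Vanishing M 0
  | glue {V : Type} [DecidableEq V] [Fintype V] (M : CoxeterMatrix V) (A B : Finset V) (i : ℕ)
      (hAB : A ∪ B = univ) (h0 : ∀ u ∈ A \ B, ∀ v ∈ B \ A, M u v = 0)
      (hA : Vanishing (sub M A) (i + 1)) (hB : Vanishing (sub M B) (i + 1))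
      (hC : Vanishing (sub M (A ∩ B)) i) : Vanishing M (i + 1)
  | part {V : Type} [DecidableEq V] [Fintype V] (M : CoxeterMatrix V) (A B : Finset V) (i : ℕ)
      (hAB : A ∪ B = univ) (h0 : ∀ u ∈ A \ B, ∀ v ∈ B \ A, M u v = 0)
      (hM : Vanishing M i) (hC : Vanishing (sub M (A ∩ B)) i) : Vanishing (sub M A) i
  | prod {V : Type} [DecidableEq V] [Fintype V] (M : CoxeterMatrix V) (A B : Finset V) (i : ℕ)
      (S : Set ℕ) (hAB : A ∪ B = univ) (hd : Disjoint A B) (h2 : ∀ u ∈ A, ∀ v ∈ B, M u v = 2)
      (hA : ∀ p, p ≤ i → p ∈ S → Vanishing (sub M A) p)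
      (hB : ∀ p, p ≤ i → p ∉ S → Vanishing (sub M B) (i - p)) : Vanishing M i

theorem acts_of_eq {V : Type} [DecidableEq V] [Fintype V] {M M' : CoxeterMatrix V} (h : M = M')
    {n d : ℕ} (hA : Acts M.Group n d) : Acts M'.Group n d := by
  subst h
  exact hA

/-- **The main theorem for the Davis complex.** -/
theorem Vanishing.l2 {V : Type} [iD : DecidableEq V] [iF : Fintype V] {M : CoxeterMatrix V} {i : ℕ}
    (h : Vanishing M i) : L2HomologyZero M i := by
  induction h with
  | ball M hM n i hi K hK e => exact hM.l2 (ball_l2 hK e hi)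
  | acts M hM n d i hi hd h => exact hM.l2 (acts_l2 hd (acts_of_eq hM.eq h) hi)
  | finite M hM i hi => exact l2_clique (sph_of_finite hM) hi
  | infinite M hM => exact l2_infinite hM
  | vanKampen M hM k i hk hdim h => exact Pool.Agent.H77.SX.fc_all M hM k hdim h i hk
  | dual M hM n i j hL hij _ h => exact pd hM hL.is hij h
  | codim M hM m i hm _ h =>
    refine vanS_univ.1 (codimY (fun Y i hi hY => ?_) m i hm univ ?_)
    · refine vanS_of_sub (l2_clique (sph_sub (hM Y fun u hu v hv huv => ⟨huv, hY u hu v hv⟩)) hi)
    · intro σ _ hσm hσ Z _ hZ j hj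
      refine vanS_of_sub (h σ Z ?_ hσm ?_ j hj)
      · exact fun u hu v hv huv => ⟨huv, hσ u hu v hv⟩
      · exact fun v hv u hu => ⟨fun h => (hZ v hv).1 (h ▸ hu), (hZ v hv).2 u hu⟩
  | glue M A B i hAB h0 _ _ _ hA hB hC =>
    exact am (cover hAB h0) (vanS_of_sub hA) (vanS_of_sub hB) (vanS_of_sub hC)
  | part M A B i hAB h0 _ _ hM hC =>
    exact sub_of_vanS (am' (cover hAB h0) hM (vanS_of_sub hC))
  | prod M A B i S hAB hd h2 _ _ hA hB =>
    refine Pool.Agent.H73.LK.prod hd hAB h2 i fun p q hpq => ?_
    by_cases hp : p ∈ S
    · exact Or.inl (vanS_of_sub (hA p (by omega) hp))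
    · have hq : i - p = q := by omega
      exact Or.inr (hq ▸ vanS_of_sub (hB p (by omega) hp))

end Pool.Agent.H3.SL
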