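import Pool.Agent.H19.SR.Hs
import Pool.Agent.S9.F.Disc

/-!
# Flag homology balls and spheres over the field of two elements

`HomologyBall2 G n`: the flag complex of `G` is a homology ball or a homology sphere of dimension `n - 1` over the
field of two elements.
-/

set_option autoImplicit false
set_option linter.unusedSectionVars false

open Finset

namespace Pool.Agent.H3.SL

open Pool.Agent.H19.SR

variable {V : Type} [DecidableEq V] [Fintype V]

/-- The flag complex of `G` is a homology ball or a homology sphere of dimension `n - 1` over the field of two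
elements: for every clique `ρ` (also for `ρ = ∅`) the reduced homology over the field of two elements of the link of
`ρ` vanishes in the degrees less than `n - 1 - |ρ|`, and has at most two elements in the degree `n - 1 - |ρ|` (the
cliques for which it vanishes form the boundary). -/
structure HomologyBall2 (G : SimpleGraph V) (n : ℕ) : Prop where
  dim : ∀ σ : Finset V, G.IsClique (σ : Set V) → σ.card ≤ n
  low : ∀ ρ : Finset V, G.IsClique (ρ : Set V) → ∀ j, j + ρ.card < n → ∀ z, LinkCh2 G ρ j z →
    bdy2 z = 0 → ∃ y, LinkCh2 G ρ (j + 1) y ∧ bdy2 y = z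
  top : ∀ ρ : Finset V, G.IsClique (ρ : Set V) → ∀ j, j + ρ.card = n →
    ∃ o, ∀ z, LinkCh2 G ρ j z → bdy2 z = 0 → z = 0 ∨ z = o

theorem ball_of_sphere {G : SimpleGraph V} {n : ℕ} (h : HomologySphere2 G n) : HomologyBall2 G n :=
  ⟨h.dim, h.low, fun ρ hρ j hj => by
    obtain ⟨o, _, _, _, ho⟩ := h.top ρ hρ j hj
    exact ⟨o, ho⟩⟩

section aux

private theorem z2 : ∀ a : ZMod 2, a ≠ 0 → a = 1 := by decide

/-- translation to the link -/
private def tr (s : Finset V) (f : Finset V → ZMod 2) (σ : Finset V) : ZMod 2 :=
  if Disjoint σ s then f (σ ∪ s) else 0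

omit [Fintype V] in
private theorem tr_of {s σ : Finset V} (hd : Disjoint σ s) (f : Finset V → ZMod 2) : tr s f σ = f (σ ∪ s) :=
  if_pos hd

omit [Fintype V] in
private theorem tr_not {s σ : Finset V} (hd : ¬ Disjoint σ s) (f : Finset V → ZMod 2) : tr s f σ = 0 :=
  if_neg hd

omit [Fintype V] in
private theorem nd_of_mem {s σ : Finset V} {v : V} (h1 : v ∈ σ) (h2 : v ∈ s) : ¬ Disjoint σ s := fun h =>
  Finset.disjoint_left.1 h h1 h2

private theorem bdy_tr {s σ : Finset V} (hd : Disjoint σ s) (f : Finset V → ZMod 2) :
    bdy2 (tr s f) σ = ∑ v ∈ (σ ∪ s)ᶜ, f (insert v (σ ∪ s)) := by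
  unfold bdy2
  have hsub : (σ ∪ s)ᶜ ⊆ σᶜ := Finset.compl_subset_compl.2 Finset.subset_union_left
  rw [← Finset.sum_subset hsub]
  · refine Finset.sum_congr rfl fun v hv => ?_
    rw [Finset.mem_compl, Finset.mem_union, not_or] at hv
    rw [tr_of, Finset.insert_union]
    rw [Finset.disjoint_insert_left]
    exact ⟨hv.2, hd⟩
  · intro v hv hv'
    rw [Finset.mem_compl] at hv hv'
    rw [not_not, Finset.mem_union] at hv'
    exact tr_not (nd_of_mem (Finset.mem_insert_self v σ) (hv'.resolve_left hv)) f

private theorem bdy_tr' {s σ : Finset V} (hd : ¬ Disjoint σ s) (f : Finset V → ZMod 2) :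
    bdy2 (tr s f) σ = 0 := by
  unfold bdy2
  refine Finset.sum_eq_zero fun v _ => tr_not (fun h => hd ?_) f
  exact Finset.disjoint_of_subset_left (Finset.subset_insert v σ) h

omit [Fintype V] in
private theorem tr_link {G : SimpleGraph V} {s : Finset V} {j : ℕ} {f : Finset V → ZMod 2}
    (hf : ∀ t, f t ≠ 0 → G.IsClique (t : Set V) ∧ s ⊆ t ∧ t.card = j + s.card) : LinkCh2 G s j (tr s f) := by
  intro σ hσ
  by_cases hd : Disjoint σ s
  · rw [tr_of hd] at hσ
    obtain ⟨h1, _, h3⟩ := hf _ hσ
    rw [Finset.card_union_of_disjoint hd] at h3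
    exact ⟨hd, h1, by omega⟩
  · exact absurd (tr_not hd f) hσ

private theorem bdy_tr_zero {s : Finset V} {f : Finset V → ZMod 2}
    (hf : ∀ t, s ⊆ t → ∑ v ∈ tᶜ, f (insert v t) = 0) : bdy2 (tr s f) = 0 := by
  funext σ
  by_cases hd : Disjoint σ s
  · rw [bdy_tr hd]
    exact hf _ Finset.subset_union_right
  · exact bdy_tr' hd f

/-- translation back -/
private theorem sum_back {G : SimpleGraph V} {s : Finset V} {j : ℕ} {y : Finset V → ZMod 2}
    (hy : LinkCh2 G s j y) {t : Finset V} (ht : s ⊆ t) :
    ∑ v ∈ tᶜ, (if s ⊆ insert v t then y (insert v t \ s) else 0) = bdy2 y (t \ s) := by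
  unfold bdy2
  have hsub : tᶜ ⊆ (t \ s)ᶜ := Finset.compl_subset_compl.2 Finset.sdiff_subset
  rw [← Finset.sum_subset hsub]
  · refine Finset.sum_congr rfl fun v hv => ?_
    rw [Finset.mem_compl] at hv
    rw [if_pos (ht.trans (Finset.subset_insert v t)), Finset.insert_sdiff_of_notMem _ fun h => hv (ht h)]
  · intro v hv hv'
    rw [Finset.mem_compl] at hv hv'
    rw [not_not] at hv'
    rw [Finset.mem_sdiff, not_and, not_not] at hv
    by_contra hne
    exact nd_of_mem (Finset.mem_insert_self v (t \ s)) (hv hv') (hy _ hne).1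

variable {G : SimpleGraph V} {n : ℕ}

private theorem uniq (h : HomologyBall2 G n) {s : Finset V} (hs : G.IsClique (s : Set V)) {j : ℕ}
    (hj : j + s.card = n) {z z' : Finset V → ZMod 2} (h1 : LinkCh2 G s j z) (h2 : bdy2 z = 0) (h3 : z ≠ 0)
    (h1' : LinkCh2 G s j z') (h2' : bdy2 z' = 0) (h3' : z' ≠ 0) : z = z' := by
  obtain ⟨o, ho⟩ := h.top s hs j hj
  rw [(ho z h1 h2).resolve_left h3, (ho z' h1' h2').resolve_left h3']

/-- a clique which is not a facet can be enlarged -/
private theorem enlarge (h : HomologyBall2 G n) {s : Finset V} (hs : G.IsClique (s : Set V))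
    (hc : s.card < n) : ∃ v, v ∉ s ∧ G.IsClique ((insert v s : Finset V) : Set V) := by
  obtain ⟨y, hy1, hy2⟩ := h.low s hs 0 (by omega) (fun σ => if σ = ∅ then 1 else 0)
    (fun σ hσ => by
      have h1 : σ = ∅ := by
        by_contra hne
        exact hσ (if_neg hne)
      rw [h1]
      exact ⟨Finset.disjoint_empty_left _, by rw [Finset.empty_union]; exact hs, rfl⟩)
    (by
      funext σ
      refine Finset.sum_eq_zero fun v _ => if_neg ?_
      exact Finset.insert_ne_empty v σ)
  have h1 := congrFun hy2 ∅
  rw [if_pos rfl] at h1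
  have h2 : ∃ v ∈ (∅ : Finset V)ᶜ, y (insert v ∅) ≠ 0 := by
    by_contra hc'
    push Not at hc'
    have h3 : bdy2 y ∅ = 0 := Finset.sum_eq_zero hc'
    rw [h1] at h3
    exact absurd h3 (by decide)
  obtain ⟨v, -, hv⟩ := h2
  obtain ⟨h3, h4, -⟩ := hy1 _ hv
  rw [Finset.disjoint_insert_left] at h3
  refine ⟨v, h3.1, ?_⟩
  rw [Finset.insert_union, Finset.empty_union] at h4
  exact h4

/-- existence of facets -/
private theorem facet (h : HomologyBall2 G n) {s : Finset V} (hs : G.IsClique (s : Set V)) :
    ∃ σ : Finset V, Disjoint σ s ∧ G.IsClique ((σ ∪ s : Finset V) : Set V) ∧ σ.card + s.card = n := by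
  have key : ∀ k, ∀ t : Finset V, G.IsClique (t : Set V) → t.card + k = n → s ⊆ t →
      ∃ t' : Finset V, t ⊆ t' ∧ G.IsClique (t' : Set V) ∧ t'.card = n := by
    intro k
    induction k with
    | zero => exact fun t ht hk _ => ⟨t, Finset.Subset.refl _, ht, by omega⟩
    | succ k ih =>
      intro t ht hk hst
      obtain ⟨v, hv, hv'⟩ := enlarge h ht (by omega)
      obtain ⟨t', h1, h2, h3⟩ := ih (insert v t) hv' (by rw [Finset.card_insert_of_notMem hv]; omega)
        (hst.trans (Finset.subset_insert v t))
      exact ⟨t', (Finset.subset_insert v t).trans h1, h2, h3⟩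
  have hc := h.dim s hs
  obtain ⟨t', h1, h2, h3⟩ := key (n - s.card) s hs (by omega) (Finset.Subset.refl _)
  refine ⟨t' \ s, Finset.sdiff_disjoint, ?_, ?_⟩
  · rw [Finset.sdiff_union_of_subset h1]
    exact h2
  · rw [Finset.card_sdiff_of_subset h1, h3]
    omega

/-- restriction to the link of a vertex -/
private def ov (o : Finset V → ZMod 2) (v : V) (σ : Finset V) : ZMod 2 := if v ∈ σ then 0 else o (insert v σ)

omit [Fintype V] in
private theorem ov_link {s : Finset V} {k : ℕ} {o : Finset V → ZMod 2} (ho : LinkCh2 G s (k + 1) o) (v : V) :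
    LinkCh2 G (insert v s) k (ov o v) := by
  intro σ hσ
  unfold ov at hσ
  split_ifs at hσ with hv
  · exact absurd rfl hσ
  · obtain ⟨h1, h2, h3⟩ := ho _ hσ
    rw [Finset.disjoint_insert_left] at h1
    rw [Finset.card_insert_of_notMem hv] at h3
    refine ⟨?_, ?_, by omega⟩
    · rw [Finset.disjoint_insert_right]
      exact ⟨hv, h1.2⟩
    · rwa [Finset.union_insert, ← Finset.insert_union]

private theorem ov_bdy {o : Finset V → ZMod 2} (ho : bdy2 o = 0) (v : V) : bdy2 (ov o v) = 0 := by
  funext σ
  show ∑ w ∈ σᶜ, ov o v (insert w σ) = 0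
  by_cases hv : v ∈ σ
  · exact Finset.sum_eq_zero fun w _ => if_pos (Finset.mem_insert_of_mem hv)
  · have h1 : (∑ w ∈ (insert v σ)ᶜ, o (insert w (insert v σ))) = 0 := congrFun ho (insert v σ)
    rw [← h1]
    have hsub : (insert v σ)ᶜ ⊆ σᶜ := Finset.compl_subset_compl.2 (Finset.subset_insert v σ)
    rw [← Finset.sum_subset hsub]
    · refine Finset.sum_congr rfl fun w hw => ?_
      rw [Finset.mem_compl, Finset.mem_insert, not_or] at hw
      have h2 : v ∉ insert w σ := by
        rw [Finset.mem_insert, not_or]
        exact ⟨fun h => hw.1 h.symm, hv⟩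
      show (if v ∈ insert w σ then 0 else o (insert v (insert w σ))) = _
      rw [if_neg h2, Finset.insert_comm]
    · intro w hw hw'
      rw [Finset.mem_compl] at hw hw'
      rw [not_not, Finset.mem_insert] at hw'
      have h3 : w = v := hw'.resolve_right hw
      rw [h3]
      exact if_pos (Finset.mem_insert_self v σ)

/-- the sum of two vertices -/
private def two (v w : V) (σ : Finset V) : ZMod 2 := if σ = {v} ∨ σ = {w} then 1 else 0

omit [Fintype V] in
private theorem two_link {s : Finset V} {v w : V} (hv : v ∉ s) (hv' : G.IsClique ((insert v s : Finset V) : Set V))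
    (hw : w ∉ s) (hw' : G.IsClique ((insert w s : Finset V) : Set V)) : LinkCh2 G s 1 (two v w) := by
  intro σ hσ
  unfold two at hσ
  split_ifs at hσ with h
  · rcases h with rfl | rfl
    · exact ⟨Finset.disjoint_singleton_left.2 hv, by rwa [← Finset.insert_eq], Finset.card_singleton v⟩
    · exact ⟨Finset.disjoint_singleton_left.2 hw, by rwa [← Finset.insert_eq], Finset.card_singleton w⟩
  · exact absurd rfl hσ

private theorem two_bdy {v w : V} (hvw : v ≠ w) : bdy2 (two v w) = 0 := by
  funext σ
  show ∑ u ∈ σᶜ, two v w (insert u σ) = 0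
  rcases Finset.eq_empty_or_nonempty σ with rfl | ⟨x, hx⟩
  · have h1 : ∀ u : V, two v w (insert u ∅) = (if u = v then 1 else 0) + (if u = w then 1 else 0) := by
      intro u
      unfold two
      rw [insert_empty_eq]
      simp only [Finset.singleton_inj]
      by_cases h1 : u = v
      · have h2 : u ≠ w := fun h => hvw (h1.symm.trans h)
        simp [h1, hvw]
      · by_cases h2 : u = w
        · simp [h2]
          intro h3
          exact absurd h3.symm hvw
        · simp [h1, h2]
    rw [Finset.sum_congr rfl fun u _ => h1 u, Finset.sum_add_distrib]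
    simp
    decide
  · refine Finset.sum_eq_zero fun u hu => ?_
    rw [Finset.mem_compl] at hu
    unfold two
    rw [if_neg]
    have h2 : ∀ y : V, insert u σ ≠ {y} := by
      intro y hy
      have h3 : u = y := Finset.mem_singleton.1 (hy ▸ Finset.mem_insert_self u σ)
      have h4 : x = y := Finset.mem_singleton.1 (hy ▸ Finset.mem_insert_of_mem hx)
      exact hu (by rw [h3, ← h4]; exact hx)
    rintro (h | h)
    · exact h2 v h
    · exact h2 w h

private theorem sum_symm (P : Finset V) (g : V → V → ZMod 2) (h1 : ∀ u x, g u x = g x u) (h2 : ∀ u, g u u = 0) :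
    ∑ u ∈ P, ∑ x ∈ P, g u x = 0 := by
  rw [← Finset.sum_product']
  refine Finset.sum_involution (fun a _ => (a.2, a.1)) ?_ ?_ ?_ ?_
  · intro a _
    show g a.1 a.2 + g a.2 a.1 = 0
    rw [h1 a.2 a.1]
    exact CharTwo.add_self_eq_zero _
  · intro a _ hne heq
    apply hne
    have h3 : a.2 = a.1 := congrArg Prod.fst heq
    show g a.1 a.2 = 0
    rw [h3]
    exact h2 _
  · intro a ha
    rw [Finset.mem_product] at ha ⊢
    exact ⟨ha.2, ha.1⟩
  · intro a _
    rfl

/-- the cycle of the top degree is one on all facets -/
private theorem ind (h : HomologyBall2 G n) : ∀ k : ℕ, ∀ s : Finset V, G.IsClique (s : Set V) →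
    k + s.card = n → ∀ o : Finset V → ZMod 2, LinkCh2 G s k o → bdy2 o = 0 → o ≠ 0 →
      ∀ σ : Finset V, Disjoint σ s → G.IsClique ((σ ∪ s : Finset V) : Set V) → σ.card = k → o σ = 1 := by
  intro k
  induction k with
  | zero =>
    intro s _ _ o h1 _ h3 σ _ _ hσ
    obtain ⟨τ, hτ⟩ := Function.ne_iff.1 h3
    have h4 := (h1 τ hτ).2.2
    rw [Finset.card_eq_zero] at h4 hσ
    rw [hσ, ← h4]
    exact z2 _ hτ
  | succ k ih =>
    intro s hs hk o h1 h2 h3 σ hσ1 hσ2 hσ3
    classical
    have hcl : ∀ {v : V} {τ : Finset V}, v ∈ τ → G.IsClique ((τ ∪ s : Finset V) : Set V) →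
        G.IsClique ((insert v s : Finset V) : Set V) := by
      intro v τ hv hτ
      refine hτ.subset ?_
      intro x hx
      rw [Finset.mem_coe, Finset.mem_insert] at hx
      rw [Finset.mem_coe, Finset.mem_union]
      rcases hx with rfl | hx
      · exact Or.inl hv
      · exact Or.inr hx
    -- if the restriction to `v` is not zero, then the cycle is one on the facets with `v`
    have key : ∀ v : V, v ∉ s → G.IsClique ((insert v s : Finset V) : Set V) → ov o v ≠ 0 →
        ∀ τ : Finset V, v ∈ τ → Disjoint τ s → G.IsClique ((τ ∪ s : Finset V) : Set V) →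
          τ.card = k + 1 → o τ = 1 := by
      intro v hv hv' hne τ hvτ hτ1 hτ2 hτ3
      have h5 : k + (insert v s).card = n := by
        rw [Finset.card_insert_of_notMem hv]
        omega
      have h6 := ih (insert v s) hv' h5 (ov o v) (ov_link h1 v) (ov_bdy h2 v) hne (τ.erase v) ?_ ?_ ?_
      · have h7 : ov o v (τ.erase v) = o τ := by
          unfold ov
          rw [if_neg (Finset.notMem_erase v τ), Finset.insert_erase hvτ]
        rw [← h7, h6]
      · rw [Finset.disjoint_insert_right]
        exact ⟨Finset.notMem_erase v τ, Finset.disjoint_of_subset_left (Finset.erase_subset v τ) hτ1⟩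
      · rw [Finset.union_insert, ← Finset.insert_union, Finset.insert_erase hvτ]
        exact hτ2
      · rw [Finset.card_erase_of_mem hvτ, hτ3]
        rfl
    -- conversely
    have key' : ∀ v : V, ∀ τ : Finset V, v ∈ τ → o τ = 1 → ov o v ≠ 0 := by
      intro v τ hvτ hτ h8
      have h7 : ov o v (τ.erase v) = o τ := by
        unfold ov
        rw [if_neg (Finset.notMem_erase v τ), Finset.insert_erase hvτ]
      rw [h8, hτ, Pi.zero_apply] at h7
      exact absurd h7 (by decide)
    -- a vertex where the restriction is not zero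
    obtain ⟨τ, hτ⟩ := Function.ne_iff.1 h3
    obtain ⟨hτ1, hτ2, hτ3⟩ := h1 τ hτ
    obtain ⟨v, hv⟩ : τ.Nonempty := by
      rw [← Finset.card_pos, hτ3]
      omega
    have hvs : v ∉ s := Finset.disjoint_left.1 hτ1 hv
    have hvc := hcl hv hτ2
    have hvne : ov o v ≠ 0 := key' v τ hv (z2 _ hτ)
    obtain ⟨w, hw⟩ : σ.Nonempty := by
      rw [← Finset.card_pos, hσ3]
      omega
    have hws : w ∉ s := Finset.disjoint_left.1 hσ1 hw
    have hwc := hcl hw hσ2
    by_cases hwne : ov o w = 0
    swap
    · exact key w hws hwc hwne σ hw hσ1 hσ2 hσ3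
    exfalso
    have hvw : v ≠ w := by
      rintro rfl
      exact hvne hwne
    have hz1 := two_link hvs hvc hws hwc
    have hz2 : bdy2 (two v w) = 0 := two_bdy hvw
    rcases Nat.eq_zero_or_pos k with hk0 | hk0
    · have hz3 : two v w ≠ 0 := by
        intro h9
        have h10 := congrFun h9 {v}
        unfold two at h10
        rw [if_pos (Or.inl rfl), Pi.zero_apply] at h10
        exact absurd h10 (by decide)
      subst hk0
      have h11 := uniq h hs hk h1 h2 h3 hz1 hz2 hz3
      refine key' w {w} (Finset.mem_singleton_self w) ?_ hwne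
      rw [h11]
      exact if_pos (Or.inr rfl)
    · obtain ⟨y, hy1, hy2⟩ := h.low s hs 1 (by omega) (two v w) hz1 hz2
      set P : Finset V := univ.filter fun u =>
        u ∉ s ∧ G.IsClique ((insert u s : Finset V) : Set V) ∧ ov o u ≠ 0 with hP
      have hPcl : ∀ u ∈ P, ∀ x, x ≠ u → y {x, u} ≠ 0 → x ∈ P := by
        intro u hu x hxu hne
        rw [hP, Finset.mem_filter] at hu ⊢
        obtain ⟨-, hu1, hu2, hu3⟩ := hu
        obtain ⟨hd, hc, -⟩ := hy1 _ hne
        have hxs : x ∉ s := Finset.disjoint_left.1 hd (Finset.mem_insert_self x _)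
        refine ⟨Finset.mem_univ x, hxs, hcl (Finset.mem_insert_self x {u}) hc, ?_⟩
        obtain ⟨η, he1, he2, he3⟩ := facet h hc
        refine key' x (η ∪ {x, u}) ?_ ?_
        · exact Finset.mem_union_right _ (Finset.mem_insert_self x _)
        · refine key u hu1 hu2 hu3 _ ?_ ?_ ?_ ?_
          · exact Finset.mem_union_right _ (Finset.mem_insert_of_mem (Finset.mem_singleton_self u))
          · rw [Finset.disjoint_union_left]
            exact ⟨Finset.disjoint_of_subset_right Finset.subset_union_right he1, hd⟩
          · rw [Finset.union_assoc]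
            exact he2
          · have e1 : Disjoint η ({x, u} : Finset V) :=
              Finset.disjoint_of_subset_right Finset.subset_union_left he1
            rw [Finset.card_union_of_disjoint hd] at he3
            rw [Finset.card_union_of_disjoint e1]
            omega
      have e1 : ∑ u ∈ P, two v w {u} = 1 := by
        rw [Finset.sum_eq_single v]
        · exact if_pos (Or.inl rfl)
        · intro u hu huv
          unfold two
          rw [if_neg]
          rintro (h12 | h12)
          · exact huv (Finset.singleton_injective h12)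
          · rw [Finset.singleton_injective h12, hP, Finset.mem_filter] at hu
            exact hu.2.2.2 hwne
        · intro hv'
          exfalso
          apply hv'
          rw [hP, Finset.mem_filter]
          exact ⟨Finset.mem_univ v, hvs, hvc, hvne⟩
      have e2 : ∑ u ∈ P, two v w {u} = 0 := by
        have e3 : ∀ u ∈ P, two v w {u} = ∑ x ∈ P, (if x = u then 0 else y {x, u}) := by
          intro u hu
          rw [← hy2]
          show ∑ x ∈ ({u} : Finset V)ᶜ, y (insert x {u}) = _
          have e4 : ∑ x ∈ ({u} : Finset V)ᶜ, y (insert x {u}) = ∑ x : V, (if x = u then 0 else y {x, u}) := by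
            rw [← Finset.sum_subset (Finset.subset_univ ({u} : Finset V)ᶜ)]
            · refine Finset.sum_congr rfl fun x hx => ?_
              rw [Finset.mem_compl, Finset.mem_singleton] at hx
              rw [if_neg hx]
            · intro x _ hx
              rw [Finset.mem_compl, Finset.mem_singleton, not_not] at hx
              rw [if_pos hx]
          rw [e4]
          symm
          refine Finset.sum_subset (Finset.subset_univ P) fun x _ hx => ?_
          by_contra hne
          by_cases hxu : x = u
          · rw [if_pos hxu] at hne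
            exact hne rfl
          · rw [if_neg hxu] at hne
            exact hx (hPcl u hu x hxu hne)
        rw [Finset.sum_congr rfl e3]
        refine sum_symm P (fun u x => if x = u then 0 else y {x, u}) (fun u x => ?_) fun u => if_pos rfl
        by_cases hxu : x = u
        · simp [hxu]
        · have hux : ¬ u = x := fun h => hxu h.symm
          simp only [hxu, hux, if_false]
          rw [Finset.pair_comm]
      rw [e1] at e2
      exact absurd e2 (by decide)

end aux

/-- **Homology balls in terms of stars.** -/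
theorem HomologyBall2.isDisc {G : SimpleGraph V} {n : ℕ} (h : HomologyBall2 G n) :
    ∃ B : Finset V → Prop, Pool.Agent.S9.IsDisc G n B := by
  classical
  refine ⟨fun s => G.IsClique (s : Set V) ∧ ∀ z, LinkCh2 G s (n - s.card) z → bdy2 z = 0 → z = 0,
    fun s hs => hs.1, ?_, h.dim, ?_, ?_, ?_, ?_⟩
  · intro s t hs hts
    have htc : G.IsClique (t : Set V) := hs.1.subset (by exact_mod_cast hts)
    refine ⟨htc, fun z hz hz0 => ?_⟩
    by_contra hne
    have hcs := h.dim s hs.1
    have hct := h.dim t htc
    have h1 := ind h _ t htc (by omega) z hz hz0 hne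
    -- the restriction to `s`
    let z' : Finset V → ZMod 2 := fun σ => if Disjoint σ s then z (σ ∪ (s \ t)) else 0
    have hz' : LinkCh2 G s (n - s.card) z' := by
      intro σ hσ
      by_cases hd : Disjoint σ s
      · have h2 : z (σ ∪ (s \ t)) ≠ 0 := by
          have h3 : z' σ = z (σ ∪ (s \ t)) := if_pos hd
          rwa [h3] at hσ
        obtain ⟨h3, h4, h5⟩ := hz _ h2
        have e1 : σ ∪ (s \ t) ∪ t = σ ∪ s := by
          rw [Finset.union_assoc, Finset.sdiff_union_of_subset hts]
        rw [e1] at h4
        have e2 : Disjoint σ (s \ t) := Finset.disjoint_of_subset_right Finset.sdiff_subset hd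
        rw [Finset.card_union_of_disjoint e2, Finset.card_sdiff_of_subset hts] at h5
        have e3 := Finset.card_le_card hts
        exact ⟨hd, h4, by omega⟩
      · exact absurd (if_neg hd) hσ
    have hz'0 : bdy2 z' = 0 := by
      funext σ
      by_cases hd : Disjoint σ s
      · have h2 : bdy2 z (σ ∪ (s \ t)) = 0 := congrFun hz0 _
        rw [Pi.zero_apply, ← h2]
        unfold bdy2
        have hsub : (σ ∪ s)ᶜ ⊆ σᶜ := Finset.compl_subset_compl.2 Finset.subset_union_left
        have hsub' : (σ ∪ s)ᶜ ⊆ (σ ∪ (s \ t))ᶜ := Finset.compl_subset_compl.2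
          (Finset.union_subset_union (Finset.Subset.refl _) Finset.sdiff_subset)
        rw [← Finset.sum_subset hsub, ← Finset.sum_subset hsub']
        · refine Finset.sum_congr rfl fun v hv => ?_
          rw [Finset.mem_compl, Finset.mem_union, not_or] at hv
          show (if Disjoint (insert v σ) s then z (insert v σ ∪ (s \ t)) else 0) = _
          rw [if_pos, Finset.insert_union]
          rw [Finset.disjoint_insert_left]
          exact ⟨hv.2, hd⟩
        · intro v hv hv'
          rw [Finset.mem_compl] at hv hv'
          rw [not_not, Finset.mem_union] at hv'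
          rw [Finset.mem_union, not_or, Finset.mem_sdiff, not_and, not_not] at hv
          by_contra hne'
          obtain ⟨h3, -, -⟩ := hz _ hne'
          have h4 : v ∈ t := hv.2 (hv'.resolve_left hv.1)
          exact nd_of_mem (Finset.mem_insert_self v _) h4 h3
        · intro v hv hv'
          rw [Finset.mem_compl] at hv hv'
          rw [not_not, Finset.mem_union] at hv'
          exact if_neg (nd_of_mem (Finset.mem_insert_self v σ) (hv'.resolve_left hv))
      · refine Finset.sum_eq_zero fun v _ => if_neg fun h3 => hd ?_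
        exact Finset.disjoint_of_subset_left (Finset.subset_insert v σ) h3
    have h2 := hs.2 z' hz' hz'0
    obtain ⟨σ, h3, h4, h5⟩ := facet h hs.1
    have h6 := congrFun h2 σ
    have h7 : z' σ = z (σ ∪ (s \ t)) := if_pos h3
    have e2 : Disjoint σ (s \ t) := Finset.disjoint_of_subset_right Finset.sdiff_subset h3
    rw [h7, h1 (σ ∪ (s \ t)), Pi.zero_apply] at h6
    · exact absurd h6 (by decide)
    · rw [Finset.disjoint_union_left]
      exact ⟨Finset.disjoint_of_subset_right hts h3, Finset.sdiff_disjoint⟩
    · rw [Finset.union_assoc, Finset.sdiff_union_of_subset hts]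
      exact h4
    · rw [Finset.card_union_of_disjoint e2, Finset.card_sdiff_of_subset hts]
      have e3 := Finset.card_le_card hts
      omega
  · intro s hs
    obtain ⟨σ, h1, h2, h3⟩ := facet h hs
    refine ⟨σ ∪ s, Finset.subset_union_right, h2, ?_⟩
    rw [Finset.card_union_of_disjoint h1]
    exact h3
  · intro s hs j hj f hf hf0
    by_cases hsj : s.card ≤ j
    · obtain ⟨y, hy1, hy2⟩ := h.low s hs (j - s.card) (by omega) (tr s f)
        (tr_link fun t ht => by
          obtain ⟨h1, h2, h3⟩ := hf t ht
          exact ⟨h1, h2, by omega⟩) (bdy_tr_zero hf0)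
      refine ⟨fun t => if s ⊆ t then y (t \ s) else 0, fun t ht => ?_, fun t ht => ?_⟩
      · have ht' : (if s ⊆ t then y (t \ s) else 0) ≠ 0 := ht
        split_ifs at ht' with hst
        · obtain ⟨_, h2, h3⟩ := hy1 _ ht'
          rw [Finset.sdiff_union_of_subset hst] at h2
          rw [Finset.card_sdiff_of_subset hst] at h3
          have h4 := Finset.card_le_card hst
          exact ⟨h2, hst, by omega⟩
        · exact absurd rfl ht'
      · show ∑ v ∈ tᶜ, (if s ⊆ insert v t then y (insert v t \ s) else 0) = f t
        rw [sum_back hy1 ht, hy2, tr_of Finset.sdiff_disjoint, Finset.sdiff_union_of_subset ht]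
    · refine ⟨0, fun t ht => absurd rfl ht, fun t _ => ?_⟩
      have h1 : f t = 0 := by
        by_contra hne
        obtain ⟨_, h2, h3⟩ := hf t hne
        have h4 := Finset.card_le_card h2
        omega
      rw [h1]
      exact Finset.sum_eq_zero fun _ _ => rfl
  · intro s hs hB f hf
    have hc := h.dim s hs
    have hk : (n - s.card) + s.card = n := by omega
    have hlink : LinkCh2 G s (n - s.card) (tr s f) := tr_link fun t ht => by
      obtain ⟨h1, h2, h3⟩ := hf t ht
      exact ⟨h1, h2, by omega⟩
    have hback : ∀ t : Finset V, s ⊆ t → f t = tr s f (t \ s) := fun t ht => by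
      rw [tr_of Finset.sdiff_disjoint, Finset.sdiff_union_of_subset ht]
    constructor
    · intro h0
      by_cases hz : tr s f = 0
      · refine ⟨0, fun t _ h2 _ => ?_⟩
        rw [hback t h2, hz]
        rfl
      · refine ⟨1, fun t h1 h2 h3 => ?_⟩
        rw [hback t h2]
        refine ind h _ s hs hk _ hlink (bdy_tr_zero h0) hz _ Finset.sdiff_disjoint ?_ ?_
        · rw [Finset.sdiff_union_of_subset h2]
          exact h1
        · rw [Finset.card_sdiff_of_subset h2, h3]
    · rintro ⟨c, hc⟩ t ht
      by_cases hc0 : c = 0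
      · refine Finset.sum_eq_zero fun v _ => ?_
        by_contra hne
        obtain ⟨h1, h2, h3⟩ := hf _ hne
        exact hne ((hc _ h1 h2 h3).trans hc0)
      · have hc1 := z2 c hc0
        obtain ⟨o, h1, h2, h3⟩ : ∃ o, LinkCh2 G s (n - s.card) o ∧ bdy2 o = 0 ∧ o ≠ 0 := by
          by_contra hcon
          refine hB ⟨hs, fun z hz1 hz2 => ?_⟩
          by_contra hz3
          exact hcon ⟨z, hz1, hz2, hz3⟩
        have h4 := ind h _ s hs hk o h1 h2 h3
        have h5 : tr s f = o := by
          funext σ
          by_cases hd : Disjoint σ s ∧ G.IsClique ((σ ∪ s : Finset V) : Set V) ∧ σ.card = n - s.card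
          · rw [h4 σ hd.1 hd.2.1 hd.2.2, tr_of hd.1, ← hc1]
            refine hc _ hd.2.1 Finset.subset_union_right ?_
            rw [Finset.card_union_of_disjoint hd.1, hd.2.2]
            omega
          · have e1 : tr s f σ = 0 := by
              by_contra hne
              exact hd (hlink σ hne)
            have e2 : o σ = 0 := by
              by_contra hne
              exact hd (h1 σ hne)
            rw [e1, e2]
        have h6 := bdy_tr (s := s) (σ := t \ s) Finset.sdiff_disjoint f
        rw [Finset.sdiff_union_of_subset ht, h5, h2] at h6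
        exact h6.symm
  · intro s hs f hf h0
    have hlink : LinkCh2 G s (n - s.card) (tr s f) := tr_link fun t ht => by
      have hc := h.dim s hs.1
      obtain ⟨h1, h2, h3⟩ := hf t ht
      exact ⟨h1, h2, by omega⟩
    have h1 := hs.2 _ hlink (bdy_tr_zero h0)
    funext t
    by_contra hne
    obtain ⟨-, h2, -⟩ := hf t hne
    have h3 := congrFun h1 (t \ s)
    rw [tr_of Finset.sdiff_disjoint, Finset.sdiff_union_of_subset h2] at h3
    exact hne h3

end Pool.Agent.H3.SL
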